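import Pool.Agent.Helper85.QT.St2

/-!
# Project QT, module NEA: limit points near points of the core, flat coordinates
-/

set_option autoImplicit false

open MeasureTheory Matrix Set Topology
open scoped ENNReal ComplexConjugate

namespace Pool.Agent.Helper26.QT

open Pool.Agent.Helper85.QT Pool.Agent.Helper86.QA

/-- NEA. -/
theorem hNEA (hSB1 : StSB1) (hSB2 : StSB2) (hFDC : StFDC) (hTTX : StTTX) : StNEA := by
  intro Γ _ ρ A B hKD lam hlam
  have hl : 0 < ‖lam‖ := norm_pos_iff.2 hlam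
  obtain ⟨hT1, hT2, hT3, -, -, -⟩ := hTTX lam hlam
  obtain ⟨hF1, -, -, hF4, -⟩ := hFDC lam hlam
  constructor
  · intro S hS x hx hsb hsmall
    obtain ⟨ξ, hξ, hd⟩ := hSB2 Γ ρ A B hKD S hS x hx hsb
    obtain ⟨ht0, ht1, ht2⟩ := hT1 x hx
    have hε : (2 * S + 3) * ‖lam‖ * TT lam x ≤ 1 / 2 := by linarith
    have hlt : TT lam x * ‖lam‖ < 1 := by
      have h1 : 3 * (‖lam‖ * TT lam x) ≤ (2 * S + 3) * (‖lam‖ * TT lam x) := by
        have : 0 ≤ ‖lam‖ * TT lam x := by positivity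
        nlinarith
      have h2 : (2 * S + 3) * (‖lam‖ * TT lam x) = (2 * S + 3) * ‖lam‖ * TT lam x := by ring
      have h3 : TT lam x * ‖lam‖ = ‖lam‖ * TT lam x := mul_comm _ _
      rw [h3]
      linarith
    have hx1 : x.1 ≠ 0 := ht2.1 hlt
    obtain ⟨hr0, -, hr1, hr2⟩ := hT3 x hx hx1
    have hrpos : 0 < ‖rd x‖ := norm_pos_iff.2 hr0
    have hdist : ‖ξ - rd x‖ ≤ ((2 * S + 3) * ‖lam‖ * TT lam x) * ‖rd x‖ := by
      have h1 : ‖ξ - rd x‖ ≤ ‖x.1 - ξ‖ + ‖rd x - x.1‖ := by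
        have e : ξ - rd x = -((x.1 - ξ) + (rd x - x.1)) := by ring
        rw [e, norm_neg]
        exact norm_add_le _ _
      have h2 : ((2 * S + 3) * ‖lam‖ * TT lam x) * ‖rd x‖ = (2 * S + 3) * x.2 := by
        rw [hr2]
        ring
      rw [h2]
      linarith
    have hq : ‖ξ / rd x - 1‖ ≤ (2 * S + 3) * ‖lam‖ * TT lam x := by
      have e : ξ / rd x - 1 = (ξ - rd x) / rd x := by
        rw [sub_div, div_self hr0]
      rw [e, norm_div, div_le_iff₀ hrpos]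
      exact hdist
    have hξ0 : ξ ≠ 0 := by
      intro h0
      rw [h0, zero_div, zero_sub, norm_neg, norm_one] at hq
      linarith
    refine ⟨ξ, hξ, hξ0, ?_⟩
    rw [(hF1 (rd x) ξ).1]
    refine (hF4 ξ (rd x) _ hξ0 hr0 hε hq).trans (le_of_eq ?_)
    field_simp
  · intro ξ hξ hξ0 T hT hTl
    obtain ⟨hup, -, -⟩ := hT2 T ξ hT hTl hξ0
    obtain ⟨-, -, -, -, -, h6⟩ := hSB1 Γ ρ A B hKD
    refine ((h6 _ hup).2.2 ξ hξ).trans ?_
    have hξpos : 0 < ‖ξ‖ := norm_pos_iff.2 hξ0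
    obtain ⟨s, hs⟩ : ∃ s : ℝ, s = T * ‖lam‖ := ⟨_, rfl⟩
    have hs0 : 0 < s := by
      rw [hs]
      positivity
    have hs1 : s < 1 := by
      rw [hs]
      exact hTl
    have e1 : (xp lam T ξ).1 = ξ * ((Real.sqrt (1 - s ^ 2) : ℝ) : ℂ) := by
      rw [hs]
      rfl
    have e2 : (xp lam T ξ).2 = ‖ξ‖ * s := by
      rw [hs]
      rfl
    have hsq : 1 - s ≤ Real.sqrt (1 - s ^ 2) := by
      apply Real.le_sqrt_of_sq_le
      nlinarith
    have hsq1 : Real.sqrt (1 - s ^ 2) ≤ 1 := by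
      apply Real.sqrt_le_one.mpr
      nlinarith
    have e3 : ‖(xp lam T ξ).1 - ξ‖ = ‖ξ‖ * (1 - Real.sqrt (1 - s ^ 2)) := by
      have e4 : (xp lam T ξ).1 - ξ = -(ξ * ((1 - Real.sqrt (1 - s ^ 2) : ℝ) : ℂ)) := by
        rw [e1]
        push_cast
        ring
      rw [e4, norm_neg, norm_mul, Complex.norm_real, Real.norm_eq_abs,
        abs_of_nonneg (by linarith)]
    rw [e3, e2, div_le_one (by positivity)]
    exact mul_le_mul_of_nonneg_left (by linarith) hξpos.le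

end Pool.Agent.Helper26.QT
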