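import Pool.Agent.Helper88.QT.St1
import Pool.Agent.Helper85.QT.St1

/-!
# Project QT, module NNS: the norm `nn`
-/

set_option autoImplicit false

open MeasureTheory Matrix Set Topology
open scoped ENNReal ComplexConjugate

namespace Pool.Agent.Helper26.QT

open Pool.Agent.Helper88.QT Pool.Agent.Helper85.QT Pool.Agent.Helper86.QA
open Pool.Agent.Helper35.PM (hs)

section frob

attribute [local instance] Matrix.frobeniusNormedRing Matrix.frobeniusNormedAddCommGroup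

lemma nns_eq (X : Mat) : nn X = ‖X‖ := by
  rw [Matrix.frobenius_norm_def, ← Real.sqrt_eq_rpow]
  unfold nn hs
  congr 1
  refine Finset.sum_congr rfl fun i _ => Finset.sum_congr rfl fun j _ => ?_
  rw [Real.rpow_two]

lemma nns_hs0 (X : Mat) : 0 ≤ hs X := by
  unfold hs
  positivity

lemma nns_mul (X Y : Mat) : nn (X * Y) ≤ nn X * nn Y := by
  rw [nns_eq, nns_eq, nns_eq]
  exact Matrix.frobenius_norm_mul X Y

lemma nns_add (X Y : Mat) : nn (X + Y) ≤ nn X + nn Y := by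
  rw [nns_eq, nns_eq, nns_eq]
  exact norm_add_le X Y

lemma nns_neg (X : Mat) : nn (-X) = nn X := by
  rw [nns_eq, nns_eq]
  exact norm_neg X

lemma nns_zero (X : Mat) : nn X = 0 ↔ X = 0 := by
  rw [nns_eq]
  exact norm_eq_zero

end frob

lemma nns_nonneg (X : Mat) : 0 ≤ nn X := Real.sqrt_nonneg _

lemma nns_sq (X : Mat) : nn X ^ 2 = hs X := Real.sq_sqrt (nns_hs0 X)

lemma nns_inv (A : SL) : nn ((A⁻¹ : SL) : Mat) = nn (A : Mat) := by
  unfold nn
  congr 1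
  rw [Matrix.SpecialLinearGroup.coe_inv, Matrix.adjugate_fin_two]
  unfold hs
  simp only [Fin.sum_univ_two, Matrix.of_apply, Matrix.cons_val', Matrix.cons_val_zero,
    Matrix.cons_val_one, norm_neg, Matrix.cons_val_fin_one]
  ring

lemma nns_tr (X : Mat) : hs X = ((X * Xᴴ).trace).re := by
  unfold hs
  simp only [Matrix.trace, Matrix.diag_apply, Matrix.mul_apply, Matrix.conjTranspose_apply,
    Complex.re_sum]
  refine Finset.sum_congr rfl fun i _ => Finset.sum_congr rfl fun j _ => ?_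
  have h : X i j * star (X i j) = ((‖X i j‖ ^ 2 : ℝ) : ℂ) := by
    have := Complex.mul_conj' (X i j)
    rw [show star (X i j) = conj (X i j) from rfl, this]
    push_cast
    rfl
  rw [h, Complex.ofReal_re]

lemma nns_unit (k : SL) (X : Mat) (hk : (k : Mat) * (k : Mat)ᴴ = 1) :
    nn (((k⁻¹ : SL) : Mat) * X * (k : Mat)) = nn X := by
  have hk2 : (k : Mat)ᴴ * (k : Mat) = 1 := mul_eq_one_comm.1 hk
  have hki : ((k⁻¹ : SL) : Mat) = (k : Mat)ᴴ := by
    have h1 : ((k⁻¹ : SL) : Mat) * (k : Mat) = 1 := by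
      rw [← Matrix.SpecialLinearGroup.coe_mul, inv_mul_cancel, Matrix.SpecialLinearGroup.coe_one]
    calc ((k⁻¹ : SL) : Mat) = ((k⁻¹ : SL) : Mat) * ((k : Mat) * (k : Mat)ᴴ) := by rw [hk, mul_one]
      _ = (k : Mat)ᴴ := by rw [← mul_assoc, h1, one_mul]
  unfold nn
  congr 1
  rw [nns_tr, nns_tr, hki]
  congr 1
  rw [Matrix.conjTranspose_mul, Matrix.conjTranspose_mul, Matrix.conjTranspose_conjTranspose]
  have h2 : (k : Mat)ᴴ * X * (k : Mat) * ((k : Mat)ᴴ * (Xᴴ * (k : Mat))) =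
      (k : Mat)ᴴ * (X * Xᴴ * (k : Mat)) := by
    calc (k : Mat)ᴴ * X * (k : Mat) * ((k : Mat)ᴴ * (Xᴴ * (k : Mat)))
        = (k : Mat)ᴴ * X * ((k : Mat) * (k : Mat)ᴴ) * (Xᴴ * (k : Mat)) := by
          simp only [mul_assoc]
      _ = (k : Mat)ᴴ * (X * Xᴴ * (k : Mat)) := by
          rw [hk]
          simp only [mul_assoc, mul_one, one_mul]
  rw [h2, Matrix.trace_mul_comm, mul_assoc, hk, mul_one]

lemma nns_one (ε : ℂ) (hε : ε = 1 ∨ ε = -1) : nn (ε • (1 : Mat)) = Real.sqrt 2 := by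
  unfold nn
  congr 1
  unfold hs
  rcases hε with h | h <;> rw [h] <;>
    simp [Fin.sum_univ_two] <;> norm_num

lemma nns_bd (A : SL) (ε : ℂ) (hε : ε = 1 ∨ ε = -1)
    (hA : nn ((A : Mat) - ε • (1 : Mat)) ≤ 1 / 10) : nn (A : Mat) ≤ 1.515 := by
  have h1 : (A : Mat) = ((A : Mat) - ε • (1 : Mat)) + ε • (1 : Mat) := by abel
  have h2 : nn (A : Mat) ≤ nn ((A : Mat) - ε • (1 : Mat)) + nn (ε • (1 : Mat)) := by
    conv_lhs => rw [h1]
    exact nns_add _ _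
  rw [nns_one ε hε] at h2
  have h3 : Real.sqrt 2 ≤ 1.415 := by
    rw [Real.sqrt_le_left (by norm_num)]
    norm_num
  linarith

lemma nns_comm (A B : SL) (ε ε' : ℂ) (hε : ε = 1 ∨ ε = -1) (hε' : ε' = 1 ∨ ε' = -1)
    (hA : nn ((A : Mat) - ε • (1 : Mat)) ≤ 1 / 10)
    (hB : nn ((B : Mat) - ε' • (1 : Mat)) ≤ 1 / 10) :
    nn (((A * B * A⁻¹ * B⁻¹ : SL) : Mat) - 1) ≤
      5 * nn ((A : Mat) - ε • (1 : Mat)) * nn ((B : Mat) - ε' • (1 : Mat)) := by
  obtain ⟨a, ha⟩ : ∃ a : Mat, a = (A : Mat) := ⟨_, rfl⟩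
  obtain ⟨b, hb⟩ : ∃ b : Mat, b = (B : Mat) := ⟨_, rfl⟩
  obtain ⟨a', ha'⟩ : ∃ a' : Mat, a' = ((A⁻¹ : SL) : Mat) := ⟨_, rfl⟩
  obtain ⟨b', hb'⟩ : ∃ b' : Mat, b' = ((B⁻¹ : SL) : Mat) := ⟨_, rfl⟩
  have hna : nn a' ≤ 1.515 := by
    rw [ha', nns_inv]
    exact nns_bd A ε hε hA
  have hnb : nn b' ≤ 1.515 := by
    rw [hb', nns_inv]
    exact nns_bd B ε' hε' hB
  have haa : a * a' = 1 := by
    rw [ha, ha', ← Matrix.SpecialLinearGroup.coe_mul, mul_inv_cancel,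
      Matrix.SpecialLinearGroup.coe_one]
  have hbb : b * b' = 1 := by
    rw [hb, hb', ← Matrix.SpecialLinearGroup.coe_mul, mul_inv_cancel,
      Matrix.SpecialLinearGroup.coe_one]
  rw [Matrix.SpecialLinearGroup.coe_mul, Matrix.SpecialLinearGroup.coe_mul,
    Matrix.SpecialLinearGroup.coe_mul, ← ha, ← hb, ← ha', ← hb']
  rw [← ha] at hA
  rw [← hb] at hB
  obtain ⟨X, hX⟩ : ∃ X : Mat, X = a - ε • (1 : Mat) := ⟨_, rfl⟩
  obtain ⟨Y, hY⟩ : ∃ Y : Mat, Y = b - ε' • (1 : Mat) := ⟨_, rfl⟩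
  rw [← hX] at hA
  rw [← hY] at hB
  rw [← hX, ← hY]
  have hcomm : a * b - b * a = X * Y + -(Y * X) := by
    rw [hX, hY]
    simp only [sub_mul, mul_sub, smul_mul_assoc, mul_smul_comm, one_mul, mul_one, smul_smul,
      smul_sub]
    rw [mul_comm ε' ε]
    abel
  have hid : a * b * a' * b' - 1 = (X * Y + -(Y * X)) * a' * b' := by
    rw [← hcomm, sub_mul, sub_mul]
    have h1 : b * a * a' * b' = 1 := by
      rw [mul_assoc b a a', haa, mul_one, hbb]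
    rw [h1]
  rw [hid]
  have h1 : nn ((X * Y + -(Y * X)) * a' * b') ≤ nn (X * Y + -(Y * X)) * nn a' * nn b' :=
    (nns_mul _ _).trans (mul_le_mul_of_nonneg_right (nns_mul _ _) (nns_nonneg _))
  have h2 : nn (X * Y + -(Y * X)) ≤ 2 * (nn X * nn Y) := by
    have h3 := nns_add (X * Y) (-(Y * X))
    rw [nns_neg] at h3
    have h4 := nns_mul X Y
    have h5 := nns_mul Y X
    linarith [mul_comm (nn Y) (nn X)]
  have hxy : 0 ≤ nn X * nn Y := mul_nonneg (nns_nonneg _) (nns_nonneg _)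
  have h6 : nn a' * nn b' ≤ 1.515 * 1.515 :=
    mul_le_mul hna hnb (nns_nonneg _) (by norm_num)
  have h7 : nn (X * Y + -(Y * X)) * nn a' * nn b' ≤ 2 * (nn X * nn Y) * (1.515 * 1.515) := by
    rw [mul_assoc]
    exact mul_le_mul h2 h6 (mul_nonneg (nns_nonneg _) (nns_nonneg _)) (by positivity)
  nlinarith

theorem hNNS : Pool.Agent.Helper88.QT.StNNS :=
  ⟨fun X Y => ⟨nns_mul X Y, nns_add X Y, nns_neg X, nns_zero X, nns_nonneg X, nns_sq X⟩,
    nns_inv, nns_unit, nns_comm⟩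

end Pool.Agent.Helper26.QT
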